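import Mathlib

/-!
# Matchings and vertex covers of finite graphs given by edge sets
-/

set_option autoImplicit false

namespace Pool.Agent.Q211.KG

variable {V : Type*} [Fintype V] [DecidableEq V]

/-- A set of edges is a matching if no vertex lies on two of them. -/
def IsMatching (M : Finset (Sym2 V)) : Prop :=
  ∀ e ∈ M, ∀ f ∈ M, ∀ v : V, v ∈ e → v ∈ f → e = f

/-- A vertex set is a cover if it meets every edge. -/
def IsCover (G : Finset (Sym2 V)) (C : Finset V) : Prop := ∀ e ∈ G, ∃ v ∈ C, v ∈ e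

/-- The matching number. -/
noncomputable def nu (G : Finset (Sym2 V)) : ℕ :=
  sSup {k | ∃ M ⊆ G, IsMatching M ∧ M.card = k}

/-- The vertex cover number. -/
noncomputable def tau (G : Finset (Sym2 V)) : ℕ :=
  sInf {k | ∃ C : Finset V, IsCover G C ∧ C.card = k}

omit [Fintype V] [DecidableEq V] in
theorem nu_bdd (G : Finset (Sym2 V)) :
    BddAbove {k | ∃ M ⊆ G, IsMatching M ∧ M.card = k} :=
  ⟨G.card, by rintro k ⟨M, hM, _, rfl⟩; exact Finset.card_le_card hM⟩

omit [Fintype V] [DecidableEq V] in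
theorem exists_nu (G : Finset (Sym2 V)) : ∃ M ⊆ G, IsMatching M ∧ M.card = nu G := by
  have h : (nu G) ∈ {k | ∃ M ⊆ G, IsMatching M ∧ M.card = k} := by
    apply Nat.sSup_mem _ (nu_bdd G)
    exact ⟨0, ∅, Finset.empty_subset _, by intro e he; simp at he, rfl⟩
  exact h

omit [Fintype V] [DecidableEq V] in
theorem le_nu {G M : Finset (Sym2 V)} (hM : M ⊆ G) (h : IsMatching M) : M.card ≤ nu G :=
  le_csSup (nu_bdd G) ⟨M, hM, h, rfl⟩

omit [DecidableEq V] in
theorem exists_tau (G : Finset (Sym2 V)) :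
    ∃ C : Finset V, IsCover G C ∧ C.card = tau G := by
  have h : (tau G) ∈ {k | ∃ C : Finset V, IsCover G C ∧ C.card = k} := by
    apply Nat.sInf_mem
    refine ⟨_, Finset.univ, ?_, rfl⟩
    intro e he
    induction e using Sym2.ind with
    | _ x y => exact ⟨x, Finset.mem_univ _, Sym2.mem_mk_left x y⟩
  exact h

omit [Fintype V] [DecidableEq V] in
theorem tau_le {G : Finset (Sym2 V)} {C : Finset V} (h : IsCover G C) : tau G ≤ C.card :=
  Nat.sInf_le ⟨C, h, rfl⟩

omit [Fintype V] [DecidableEq V] in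
theorem exists_choice {G : Finset (Sym2 V)} {C : Finset V} (hC : IsCover G C) :
    ∃ g : Sym2 V → V, ∀ e ∈ G, g e ∈ C ∧ g e ∈ e := by
  classical
  have h : ∀ e : Sym2 V, ∃ v : V, e ∈ G → v ∈ C ∧ v ∈ e := by
    intro e
    by_cases he : e ∈ G
    · obtain ⟨v, hv, hv'⟩ := hC e he
      exact ⟨v, fun _ => ⟨hv, hv'⟩⟩
    · induction e using Sym2.ind with
      | _ x y => exact ⟨x, fun h => absurd h he⟩
  choose g hg using h
  exact ⟨g, hg⟩

omit [Fintype V] [DecidableEq V] in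
/-- A cover is at least as large as a matching. -/
theorem card_le_of_cover {G M : Finset (Sym2 V)} {C : Finset V} (hC : IsCover G C) (hM : M ⊆ G)
    (h : IsMatching M) : M.card ≤ C.card := by
  obtain ⟨g, hg⟩ := exists_choice hC
  apply Finset.card_le_card_of_injOn g
  · intro e he
    exact (hg e (hM he)).1
  · intro e he f hf hef
    refine h e he f hf (g e) (hg e (hM he)).2 ?_
    rw [hef]
    exact (hg f (hM hf)).2

omit [DecidableEq V] in
theorem nu_le_tau (G : Finset (Sym2 V)) : nu G ≤ tau G := by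
  obtain ⟨M, hM, h1, h2⟩ := exists_nu G
  obtain ⟨C, hC, h3⟩ := exists_tau G
  rw [← h2, ← h3]
  exact card_le_of_cover hC hM h1

/-- `J` is missed by some maximum matching. -/
def Miss (G : Finset (Sym2 V)) (J : Finset V) : Prop :=
  ∃ M ⊆ G, IsMatching M ∧ M.card = nu G ∧ ∀ e ∈ M, ∀ v ∈ e, v ∉ J

/-- Injections along edges out of `C` avoiding `C` and `J`. -/
def InjRep (G : Finset (Sym2 V)) (C J : Finset V) : Prop :=
  ∃ f : V → V, Set.InjOn f C ∧ ∀ c ∈ C, f c ∉ C ∧ f c ∉ J ∧ s(c, f c) ∈ G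

omit [Fintype V] in
theorem injRep_of_matching {G M : Finset (Sym2 V)} {C J : Finset V} (hd : ∀ e ∈ G, ¬ e.IsDiag)
    (hC : IsCover G C) (hM : M ⊆ G) (h : IsMatching M) (hcard : M.card = C.card)
    (hJ : ∀ e ∈ M, ∀ v ∈ e, v ∉ J) : Disjoint J C ∧ InjRep G C J := by
  obtain ⟨g, hg⟩ := exists_choice hC
  have hg1 : ∀ e ∈ G, g e ∈ C := fun e he => (hg e he).1
  have hg2 : ∀ e ∈ G, g e ∈ e := fun e he => (hg e he).2
  have hinj : Set.InjOn g M := by
    intro e he f hf hef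
    refine h e he f hf (g e) (hg2 e (hM he)) ?_
    rw [hef]
    exact hg2 f (hM hf)
  have hsurj : ∀ c ∈ C, ∃ e ∈ M, g e = c := by
    have himg : M.image g = C := by
      apply Finset.eq_of_subset_of_card_le
      · intro c hc
        obtain ⟨e, he, rfl⟩ := Finset.mem_image.1 hc
        exact hg1 e (hM he)
      · rw [Finset.card_image_of_injOn hinj, hcard]
    intro c hc
    rw [← himg] at hc
    obtain ⟨e, he, hce⟩ := Finset.mem_image.1 hc
    exact ⟨e, he, hce⟩
  have hex : ∀ c : V, ∃ d : V, c ∈ C → s(c, d) ∈ M ∧ d ∉ C ∧ g s(c, d) = c := by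
    intro c
    by_cases hc : c ∈ C
    swap
    · exact ⟨c, fun h => absurd h hc⟩
    obtain ⟨e, he, hce⟩ := hsurj c hc
    have hce' : c ∈ e := by
      rw [← hce]
      exact hg2 e (hM he)
    obtain ⟨d, rfl⟩ := Sym2.mem_iff_exists.1 hce'
    refine ⟨d, fun _ => ⟨he, ?_, hce⟩⟩
    intro hdC
    obtain ⟨e', he', hde'⟩ := hsurj d hdC
    have hd' : d ∈ e' := by
      rw [← hde']
      exact hg2 e' (hM he')
    have heq := h _ he e' he' d (Sym2.mem_mk_right c d) hd'
    rw [← heq, hce] at hde'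
    exact hd _ (hM he) (by rw [hde']; exact Sym2.mk_isDiag_iff.2 rfl)
  choose f hf using hex
  have hf1 : ∀ c ∈ C, s(c, f c) ∈ M := fun c hc => (hf c hc).1
  have hf2 : ∀ c ∈ C, f c ∉ C := fun c hc => (hf c hc).2.1
  have hf3 : ∀ c ∈ C, g s(c, f c) = c := fun c hc => (hf c hc).2.2
  constructor
  · rw [Finset.disjoint_left]
    intro c hcJ hc
    exact hJ _ (hf1 c hc) c (Sym2.mem_mk_left _ _) hcJ
  · refine ⟨f, ?_, fun c hc => ⟨hf2 c hc, hJ _ (hf1 c hc) _ (Sym2.mem_mk_right _ _),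
      hM (hf1 c hc)⟩⟩
    intro c hc c' hc' hcc
    have h1 := h _ (hf1 c hc) _ (hf1 c' hc') (f c) (Sym2.mem_mk_right _ _)
      (by rw [hcc]; exact Sym2.mem_mk_right _ _)
    rw [← hf3 c hc, h1, hf3 c' hc']

omit [Fintype V] in
theorem matching_of_injRep {G : Finset (Sym2 V)} {C J : Finset V}
    (hJC : Disjoint J C) (h : InjRep G C J) :
    ∃ M ⊆ G, IsMatching M ∧ M.card = C.card ∧ ∀ e ∈ M, ∀ v ∈ e, v ∉ J := by
  obtain ⟨f, hf, hf2⟩ := h
  have key : ∀ c ∈ C, ∀ c' ∈ C, ∀ v : V, v ∈ s(c, f c) → v ∈ s(c', f c') → c = c' := by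
    intro c hc c' hc' v hv hv'
    rw [Sym2.mem_iff] at hv hv'
    rcases hv with rfl | rfl
    · rcases hv' with h1 | h1
      · exact h1
      · exfalso
        exact (hf2 c' hc').1 (h1 ▸ hc)
    · rcases hv' with h1 | h1
      · exfalso
        exact (hf2 c hc).1 (h1 ▸ hc')
      · exact hf hc hc' h1
  refine ⟨C.image fun c => s(c, f c), ?_, ?_, ?_, ?_⟩
  · intro e he
    obtain ⟨c, hc, rfl⟩ := Finset.mem_image.1 he
    exact (hf2 c hc).2.2
  · intro e he e' he' v hv hv'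
    obtain ⟨c, hc, rfl⟩ := Finset.mem_image.1 he
    obtain ⟨c', hc', rfl⟩ := Finset.mem_image.1 he'
    rw [key c hc c' hc' v hv hv']
  · apply Finset.card_image_of_injOn
    intro c hc c' hc' hcc
    exact key c hc c' hc' c (Sym2.mem_mk_left _ _) (by
      have : s(c, f c) = s(c', f c') := hcc
      rw [← this]
      exact Sym2.mem_mk_left _ _)
  · intro e he v hv
    obtain ⟨c, hc, rfl⟩ := Finset.mem_image.1 he
    rw [Sym2.mem_iff] at hv
    rcases hv with rfl | rfl
    · intro hvJ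
      exact Finset.disjoint_left.1 hJC hvJ hc
    · exact (hf2 c hc).2.1

omit [Fintype V] in
theorem miss_iff {G : Finset (Sym2 V)} {C : Finset V} (hd : ∀ e ∈ G, ¬ e.IsDiag)
    (hC : IsCover G C) (hcard : C.card = nu G) (J : Finset V) :
    Miss G J ↔ Disjoint J C ∧ InjRep G C J := by
  constructor
  · rintro ⟨M, hM, h1, h2, h3⟩
    exact injRep_of_matching hd hC hM h1 (h2.trans hcard.symm) h3
  · rintro ⟨h1, h2⟩
    obtain ⟨M, hM, h3, h4, h5⟩ := matching_of_injRep h1 h2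
    exact ⟨M, hM, h3, h4.trans hcard, h5⟩

end Pool.Agent.Q211.KG
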