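import Pool.Agent.Q211.KG.Step

/-!
# The invariant of the König graph process
-/

set_option autoImplicit false

namespace Pool.Agent.Q211.KG

variable {V : Type*} [Fintype V] [DecidableEq V]

/-- The König property. -/
def Konig (G : Finset (Sym2 V)) : Prop := tau G = nu G

omit [Fintype V] [DecidableEq V] in
theorem nu_mono {G G' : Finset (Sym2 V)} (h : G ⊆ G') : nu G ≤ nu G' := by
  obtain ⟨M, hM, h1, h2⟩ := exists_nu G
  rw [← h2]
  exact le_nu (hM.trans h) h1

omit [Fintype V] in
theorem nu_insert_le (G : Finset (Sym2 V)) (e : Sym2 V) : nu (insert e G) ≤ nu G + 1 := by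
  obtain ⟨M, hM, h1, h2⟩ := exists_nu (insert e G)
  have h3 : (M.erase e).card ≤ nu G := by
    apply le_nu
    · intro f hf
      obtain ⟨hfe, hfM⟩ := Finset.mem_erase.1 hf
      rcases Finset.mem_insert.1 (hM hfM) with h | h
      · exact absurd h hfe
      · exact h
    · intro f hf f' hf' v hv hv'
      exact h1 f (Finset.mem_of_mem_erase hf) f' (Finset.mem_of_mem_erase hf') v hv hv'
  have h4 : M.card - 1 ≤ (M.erase e).card := Finset.pred_card_le_card_erase
  omega

theorem tau_insert_le (G : Finset (Sym2 V)) (x y : V) :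
    tau (insert s(x, y) G) ≤ tau G + 1 := by
  obtain ⟨C, hC, h1⟩ := exists_tau G
  have h2 : IsCover (insert s(x, y) G) (insert x C) := by
    intro e he
    rcases Finset.mem_insert.1 he with rfl | he
    · exact ⟨x, Finset.mem_insert_self _ _, Sym2.mem_mk_left _ _⟩
    · obtain ⟨v, hv, hve⟩ := hC e he
      exact ⟨v, Finset.mem_insert_of_mem hv, hve⟩
  refine (tau_le h2).trans ?_
  rw [← h1]
  exact Finset.card_insert_le _ _

omit [Fintype V] in
/-- Adding an edge between two missed vertices. -/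
theorem insert_matching {M : Finset (Sym2 V)} (h1 : IsMatching M) {x y : V}
    (hx : ∀ e ∈ M, x ∉ e) (hy : ∀ e ∈ M, y ∉ e) :
    IsMatching (insert s(x, y) M) ∧ (insert s(x, y) M).card = M.card + 1 := by
  constructor
  · intro e he f hf v hv hv'
    rcases Finset.mem_insert.1 he with he1 | he1
    · rcases Finset.mem_insert.1 hf with hf1 | hf1
      · rw [he1, hf1]
      · exfalso
        rw [he1] at hv
        rcases Sym2.mem_iff.1 hv with h2 | h2
        · exact hx f hf1 (h2 ▸ hv')
        · exact hy f hf1 (h2 ▸ hv')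
    · rcases Finset.mem_insert.1 hf with hf1 | hf1
      · exfalso
        rw [hf1] at hv'
        rcases Sym2.mem_iff.1 hv' with h2 | h2
        · exact hx e he1 (h2 ▸ hv)
        · exact hy e he1 (h2 ▸ hv)
      · exact h1 e he1 f hf1 v hv hv'
  · apply Finset.card_insert_of_notMem
    intro h
    exact hx _ h (Sym2.mem_mk_left _ _)

omit [Fintype V] in
theorem Miss.edge_notMem {G : Finset (Sym2 V)} {J : Finset V} (h : Miss G J) {p q : V}
    (hp : p ∈ J) (hq : q ∈ J) : s(p, q) ∉ G := by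
  intro hpq
  obtain ⟨M, hM, h1, h2, h3⟩ := h
  obtain ⟨h4, h5⟩ := insert_matching h1 (x := p) (y := q)
    (fun e he hpe => h3 e he p hpe hp) (fun e he hqe => h3 e he q hqe hq)
  have h6 : (insert s(p, q) M).card ≤ nu G := by
    apply le_nu _ h4
    intro e he
    rcases Finset.mem_insert.1 he with rfl | he
    · exact hpq
    · exact hM he
  omega

omit [Fintype V] [DecidableEq V] in
theorem Miss.up {G G' : Finset (Sym2 V)} {J : Finset V} (h : Miss G J) (hG : G ⊆ G')
    (hnu : nu G' = nu G) : Miss G' J := by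
  obtain ⟨M, hM, h1, h2, h3⟩ := h
  exact ⟨M, hM.trans hG, h1, h2.trans hnu.symm, h3⟩

/-- The invariant: `P` is the set of proposed edges. -/
def Inv (G P : Finset (Sym2 V)) : Prop :=
  ∀ J : Finset V, Miss G J → J.card + 2 + 2 * nu G ≤ Fintype.card V →
    ∃ p q, p ≠ q ∧ p ∉ J ∧ q ∉ J ∧ s(p, q) ∉ P ∧ Miss G (insert p (insert q J))

theorem inv_empty : Inv (∅ : Finset (Sym2 V)) ∅ := by
  intro J _ hJ
  have hn : nu (∅ : Finset (Sym2 V)) = 0 := by
    obtain ⟨M, hM, _, h2⟩ := exists_nu (∅ : Finset (Sym2 V))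
    rw [← h2, Finset.subset_empty.1 hM]
    rfl
  have h1 : 1 < (Finset.univ \ J).card := by
    rw [Finset.card_sdiff_of_subset (Finset.subset_univ J), Finset.card_univ]
    omega
  obtain ⟨p, hp, q, hq, hpq⟩ := Finset.one_lt_card.1 h1
  rw [Finset.mem_sdiff] at hp hq
  refine ⟨p, q, hpq, hp.2, hq.2, by simp, ∅, subset_rfl, ?_, ?_, ?_⟩
  · intro e he
    simp at he
  · rw [hn]
    rfl
  · intro e he
    simp at he

/-- Rejection. -/
theorem inv_reject {G P : Finset (Sym2 V)} {x y : V} (hK : Konig G)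
    (hrej : ¬ Konig (insert s(x, y) G)) (h : Inv G P) : Inv G (insert s(x, y) P) := by
  intro J hJ hcard
  obtain ⟨p, q, hpq, hp, hq, hP, hM⟩ := h J hJ hcard
  refine ⟨p, q, hpq, hp, hq, ?_, hM⟩
  rw [Finset.mem_insert, not_or]
  refine ⟨?_, hP⟩
  intro heq
  apply hrej
  obtain ⟨M, hMG, h1, h2, h3⟩ := hM
  have hp' : ∀ e ∈ M, p ∉ e := fun e he hpe => h3 e he p hpe (Finset.mem_insert_self _ _)
  have hq' : ∀ e ∈ M, q ∉ e := fun e he hqe => h3 e he q hqe
    (Finset.mem_insert_of_mem (Finset.mem_insert_self _ _))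
  obtain ⟨h4, h5⟩ := insert_matching h1 hp' hq'
  have h6 : (insert s(p, q) M).card ≤ nu (insert s(x, y) G) := by
    apply le_nu _ h4
    intro e he
    rcases Finset.mem_insert.1 he with rfl | he
    · rw [heq]
      exact Finset.mem_insert_self _ _
    · exact Finset.mem_insert_of_mem (hMG he)
  have h7 := tau_insert_le G x y
  have h8 := nu_le_tau (insert s(x, y) G)
  unfold Konig at hK ⊢
  omega

/-- Acceptance with increase of the matching number. -/
theorem inv_up {G P : Finset (Sym2 V)} {x y : V} (hxy : x ≠ y)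
    (hnu : nu (insert s(x, y) G) = nu G + 1) (h : Inv G P) :
    Inv (insert s(x, y) G) (insert s(x, y) P) := by
  intro J hJ hcard
  obtain ⟨M', hM', h1, h2, h3⟩ := hJ
  have heM : s(x, y) ∈ M' := by
    by_contra hcon
    have h4 : M'.card ≤ nu G := by
      apply le_nu _ h1
      intro f hf
      rcases Finset.mem_insert.1 (hM' hf) with h | h
      · exact absurd (h ▸ hf) hcon
      · exact h
    omega
  have hxJ : x ∉ J := h3 _ heM x (Sym2.mem_mk_left _ _)
  have hyJ : y ∉ J := h3 _ heM y (Sym2.mem_mk_right _ _)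
  have hM : Miss G (insert x (insert y J)) := by
    refine ⟨M'.erase s(x, y), ?_, ?_, ?_, ?_⟩
    · intro f hf
      obtain ⟨hfe, hfM⟩ := Finset.mem_erase.1 hf
      rcases Finset.mem_insert.1 (hM' hfM) with h | h
      · exact absurd h hfe
      · exact h
    · intro f hf f' hf' v hv hv'
      exact h1 f (Finset.mem_of_mem_erase hf) f' (Finset.mem_of_mem_erase hf') v hv hv'
    · rw [Finset.card_erase_of_mem heM]
      omega
    · intro f hf v hv
      obtain ⟨hfe, hfM⟩ := Finset.mem_erase.1 hf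
      rw [Finset.mem_insert, Finset.mem_insert, not_or, not_or]
      refine ⟨?_, ?_, h3 f hfM v hv⟩
      · rintro rfl
        exact hfe (h1 f hfM _ heM v hv (Sym2.mem_mk_left _ _))
      · rintro rfl
        exact hfe (h1 f hfM _ heM v hv (Sym2.mem_mk_right _ _))
  have hc : (insert x (insert y J)).card = J.card + 2 := by
    rw [Finset.card_insert_of_notMem, Finset.card_insert_of_notMem hyJ]
    rw [Finset.mem_insert, not_or]
    exact ⟨hxy, hxJ⟩
  obtain ⟨p, q, hpq, hp, hq, hP, M, hMG, m1, m2, m3⟩ := h _ hM (by omega)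
  rw [Finset.mem_insert, Finset.mem_insert, not_or, not_or] at hp hq
  have hx' : ∀ e ∈ M, x ∉ e := fun e he hxe => m3 e he x hxe (by simp)
  have hy' : ∀ e ∈ M, y ∉ e := fun e he hye => m3 e he y hye (by simp)
  obtain ⟨h4, h5⟩ := insert_matching m1 hx' hy'
  refine ⟨p, q, hpq, hp.2.2, hq.2.2, ?_, insert s(x, y) M, ?_, h4, ?_, ?_⟩
  · rw [Finset.mem_insert, not_or]
    refine ⟨?_, hP⟩
    rw [Sym2.eq_iff]
    rintro (⟨h6, _⟩ | ⟨h6, _⟩)
    · exact hp.1 h6
    · exact hp.2.1 h6
  · exact Finset.insert_subset_insert _ hMG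
  · omega
  · intro e he v hv
    rcases Finset.mem_insert.1 he with rfl | he
    · rw [Finset.mem_insert, Finset.mem_insert, not_or, not_or]
      rcases Sym2.mem_iff.1 hv with rfl | rfl
      · exact ⟨fun h => hp.1 h.symm, fun h => hq.1 h.symm, hxJ⟩
      · exact ⟨fun h => hp.2.1 h.symm, fun h => hq.2.1 h.symm, hyJ⟩
    · intro hv'
      apply m3 e he v hv
      rcases Finset.mem_insert.1 hv' with rfl | hv'
      · exact Finset.mem_insert_self _ _
      · apply Finset.mem_insert_of_mem
        rcases Finset.mem_insert.1 hv' with rfl | hv'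
        · exact Finset.mem_insert_self _ _
        · exact Finset.mem_insert_of_mem (Finset.mem_insert_of_mem
            (Finset.mem_insert_of_mem hv'))

/-- Acceptance with the same matching number, `x` in the optimal cover `C`. -/
theorem inv_same_aux {G P : Finset (Sym2 V)} {x y : V} (hd : ∀ e ∈ insert s(x, y) G, ¬ e.IsDiag)
    (hnu : nu (insert s(x, y) G) = nu G) {C : Finset V} (hC : IsCover (insert s(x, y) G) C)
    (hCc : C.card = nu G) (hx : x ∈ C) (h : Inv G P) :
    Inv (insert s(x, y) G) (insert s(x, y) P) := by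
  have hsub : G ⊆ insert s(x, y) G := Finset.subset_insert _ _
  have hdG : ∀ e ∈ G, ¬ e.IsDiag := fun e he => hd e (hsub he)
  have hCG : IsCover G C := fun e he => hC e (hsub he)
  have easy : ∀ J : Finset V, Miss G J → J.card + 2 + 2 * nu G ≤ Fintype.card V →
      ∃ p q, p ≠ q ∧ p ∉ J ∧ q ∉ J ∧ s(p, q) ∉ insert s(x, y) P ∧
        Miss (insert s(x, y) G) (insert p (insert q J)) := by
    intro J hJ hcard
    obtain ⟨p, q, hpq, hp, hq, hP, hM⟩ := h J hJ hcard
    have hM' := hM.up hsub hnu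
    refine ⟨p, q, hpq, hp, hq, ?_, hM'⟩
    rw [Finset.mem_insert, not_or]
    refine ⟨?_, hP⟩
    intro heq
    apply hM'.edge_notMem (Finset.mem_insert_self p _)
      (Finset.mem_insert_of_mem (Finset.mem_insert_self q J))
    rw [heq]
    exact Finset.mem_insert_self _ _
  intro J hJ hcard
  rw [hnu] at hcard
  by_cases hJG : Miss G J
  · exact easy J hJG hcard
  obtain ⟨hdisj, hrep⟩ := (miss_iff hd hC (hCc.trans hnu.symm) J).1 hJ
  have hnot : ¬ InjRep G C J := fun h1 => hJG ((miss_iff hdG hCG hCc J).2 ⟨hdisj, h1⟩)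
  have hy : y ∉ C := by
    intro hy
    apply hnot
    obtain ⟨f, hf, hf'⟩ := hrep
    refine ⟨f, hf, fun c hc => ⟨(hf' c hc).1, (hf' c hc).2.1, ?_⟩⟩
    rcases Finset.mem_insert.1 (hf' c hc).2.2 with h1 | h1
    · exfalso
      rcases Sym2.eq_iff.1 h1 with ⟨_, h2⟩ | ⟨_, h2⟩
      · exact (hf' c hc).1 (h2 ▸ hy)
      · exact (hf' c hc).1 (h2 ▸ hx)
    · exact h1
  have hG0 : InjRep G C ∅ := by
    obtain ⟨M, hM, m1, m2⟩ := exists_nu G
    exact ((miss_iff hdG hCG hCc ∅).1 ⟨M, hM, m1, m2, fun _ _ _ _ => Finset.notMem_empty _⟩).2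
  obtain ⟨hyJ, z, hz, hrep1, hstep⟩ := step_same hx hy hG0 hnot hrep
  have hdisj1 : Disjoint (insert y (J.erase z)) C := by
    rw [Finset.disjoint_insert_left]
    exact ⟨hy, hdisj.mono_left (Finset.erase_subset _ _)⟩
  have hc1 : (insert y (J.erase z)).card = J.card := by
    rw [Finset.card_insert_of_notMem, Finset.card_erase_of_mem hz]
    · have : 0 < J.card := Finset.card_pos.2 ⟨z, hz⟩
      omega
    · intro h1
      exact hyJ (Finset.mem_of_mem_erase h1)
  obtain ⟨p, q, hpq, hp, hq, hP, hM⟩ := h _ ((miss_iff hdG hCG hCc _).2 ⟨hdisj1, hrep1⟩)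
    (by rw [hc1]; exact hcard)
  obtain ⟨hdisj2, hrep2⟩ := (miss_iff hdG hCG hCc _).1 hM
  obtain ⟨hpJ, hqJ, hrep3⟩ := hstep p q hp hq hrep2
  rw [Finset.disjoint_insert_left, Finset.disjoint_insert_left] at hdisj2
  have hM' : Miss (insert s(x, y) G) (insert p (insert q J)) := by
    apply (miss_iff hd hC (hCc.trans hnu.symm) _).2
    refine ⟨?_, hrep3⟩
    rw [Finset.disjoint_insert_left, Finset.disjoint_insert_left]
    exact ⟨hdisj2.1, hdisj2.2.1, hdisj⟩
  refine ⟨p, q, hpq, hpJ, hqJ, ?_, hM'⟩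
  rw [Finset.mem_insert, not_or]
  refine ⟨?_, hP⟩
  intro heq
  apply hM'.edge_notMem (Finset.mem_insert_self p _)
    (Finset.mem_insert_of_mem (Finset.mem_insert_self q J))
  rw [heq]
  exact Finset.mem_insert_self _ _

/-- Acceptance with the same matching number. -/
theorem inv_same {G P : Finset (Sym2 V)} {x y : V} (hd : ∀ e ∈ insert s(x, y) G, ¬ e.IsDiag)
    (hK : Konig (insert s(x, y) G)) (hnu : nu (insert s(x, y) G) = nu G) (h : Inv G P) :
    Inv (insert s(x, y) G) (insert s(x, y) P) := by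
  obtain ⟨C, hC, hCc⟩ := exists_tau (insert s(x, y) G)
  have hCc' : C.card = nu G := by
    rw [hCc, hK, hnu]
  obtain ⟨v, hv, hv'⟩ := hC _ (Finset.mem_insert_self _ _)
  rcases Sym2.mem_iff.1 hv' with rfl | rfl
  · exact inv_same_aux hd hnu hC hCc' hv h
  · rw [Sym2.eq_swap] at hd hnu hC ⊢
    exact inv_same_aux hd hnu hC hCc' hv h

open Classical in
/-- One step of the König graph process. -/
noncomputable def kstep (G : Finset (Sym2 V)) (e : Sym2 V) : Finset (Sym2 V) :=
  if Konig (insert e G) then insert e G else G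

theorem inv_step {G P : Finset (Sym2 V)} {e : Sym2 V} (hd : ∀ e ∈ G, ¬ e.IsDiag)
    (he : ¬ e.IsDiag) (hK : Konig G) (h : Inv G P) :
    (∀ f ∈ kstep G e, ¬ f.IsDiag) ∧ Konig (kstep G e) ∧ Inv (kstep G e) (insert e P) := by
  induction e using Sym2.ind with
  | _ x y =>
    unfold kstep
    split_ifs with hK'
    · have hd' : ∀ f ∈ insert s(x, y) G, ¬ f.IsDiag := by
        intro f hf
        rcases Finset.mem_insert.1 hf with rfl | hf
        · exact he
        · exact hd f hf
      refine ⟨hd', hK', ?_⟩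
      have h1 := nu_mono (Finset.subset_insert s(x, y) G)
      have h2 := nu_insert_le G s(x, y)
      rcases Nat.lt_or_ge (nu G) (nu (insert s(x, y) G)) with h3 | h3
      · exact inv_up (fun hxy => he (Sym2.mk_isDiag_iff.2 hxy)) (by omega) h
      · exact inv_same hd' hK' (by omega) h
    · exact ⟨hd, hK, inv_reject hK hK' h⟩

end Pool.Agent.Q211.KG
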