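import Pool.Agent.Q211.KG.Basic

/-!
# The step lemma
-/

set_option autoImplicit false

namespace Pool.Agent.Q211.KG

variable {V : Type*} [Fintype V] [DecidableEq V]

/-- The exchange lemma. -/
theorem exchange {G : Finset (Sym2 V)} {C : Finset V} {x : V} (hx : x ∈ C) (φ : V → V)
    (hφ : Set.InjOn φ (C.erase x : Finset V))
    (hφ2 : ∀ c ∈ C.erase x, φ c ∉ C ∧ s(c, φ c) ∈ G) (hψ : InjRep G C ∅) :
    ∃ ψ : V → V, Set.InjOn ψ C ∧ (∀ c ∈ C, ψ c ∉ C ∧ s(c, ψ c) ∈ G) ∧
      ∃ b, b ∉ (C.erase x).image φ ∧ insert b ((C.erase x).image φ) = C.image ψ := by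
  classical
  obtain ⟨ψ0, h0, h0'⟩ := hψ
  set A : Finset (V → V) := Finset.univ.filter (fun ψ : V → V =>
    Set.InjOn ψ C ∧ ∀ c ∈ C, ψ c ∉ C ∧ s(c, ψ c) ∈ G) with hA
  have hne : A.Nonempty := ⟨ψ0, by
    rw [hA, Finset.mem_filter]
    exact ⟨Finset.mem_univ _, h0, fun c hc => ⟨(h0' c hc).1, (h0' c hc).2.2⟩⟩⟩
  obtain ⟨ψ, hψA, hmax⟩ := A.exists_max_image
    (fun ψ => ((C.erase x).filter (fun c => ψ c = φ c)).card) hne
  rw [hA, Finset.mem_filter] at hψA
  obtain ⟨-, h1, h2⟩ := hψA
  refine ⟨ψ, h1, h2, ?_⟩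
  have hsub : (C.erase x).image φ ⊆ C.image ψ := by
    intro b hb
    obtain ⟨c, hc, rfl⟩ := Finset.mem_image.1 hb
    by_contra hcon
    have hcC : c ∈ C := Finset.mem_of_mem_erase hc
    have hne' : ψ c ≠ φ c := by
      intro h
      exact hcon (h ▸ Finset.mem_image_of_mem _ hcC)
    have hupd : ∀ a ∈ C, a ≠ c → Function.update ψ c (φ c) a = ψ a := fun a _ hac =>
      Function.update_of_ne hac _ _
    have hmem : Function.update ψ c (φ c) ∈ A := by
      rw [hA, Finset.mem_filter]
      refine ⟨Finset.mem_univ _, ?_, ?_⟩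
      · intro a ha a' ha' haa
        by_cases e1 : a = c
        · by_cases e2 : a' = c
          · rw [e1, e2]
          · exfalso
            rw [hupd a' ha' e2, e1, Function.update_self] at haa
            exact hcon (haa ▸ Finset.mem_image_of_mem _ ha')
        · by_cases e2 : a' = c
          · exfalso
            rw [hupd a ha e1, e2, Function.update_self] at haa
            exact hcon (haa ▸ Finset.mem_image_of_mem _ ha)
          · rw [hupd a ha e1, hupd a' ha' e2] at haa
            exact h1 ha ha' haa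
      · intro a ha
        by_cases e1 : a = c
        · rw [e1, Function.update_self]
          exact hφ2 c hc
        · rw [hupd a ha e1]
          exact h2 a ha
    have hlt : ((C.erase x).filter (fun a => ψ a = φ a)).card <
        ((C.erase x).filter (fun a => Function.update ψ c (φ c) a = φ a)).card := by
      apply Finset.card_lt_card
      rw [Finset.ssubset_iff_of_subset]
      · refine ⟨c, ?_, ?_⟩
        · rw [Finset.mem_filter, Function.update_self]
          exact ⟨hc, rfl⟩
        · rw [Finset.mem_filter]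
          rintro ⟨_, h⟩
          exact hne' h
      · intro a ha
        rw [Finset.mem_filter] at ha ⊢
        refine ⟨ha.1, ?_⟩
        have hac : a ≠ c := by
          rintro rfl
          exact hne' ha.2
        rw [Function.update_of_ne hac]
        exact ha.2
    exact absurd (hmax _ hmem) (not_le.2 hlt)
  have hcard : ((C.erase x).image φ).card + 1 = (C.image ψ).card := by
    rw [Finset.card_image_of_injOn hφ, Finset.card_image_of_injOn h1, Finset.card_erase_of_mem hx]
    have : 0 < C.card := Finset.card_pos.2 ⟨x, hx⟩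
    omega
  obtain ⟨b, hb, hb'⟩ := Finset.exists_eq_insert_iff.2 ⟨hsub, hcard⟩
  exact ⟨b, hb, hb'⟩

/-- The neighbours of `W` outside `C ∪ J`. -/
def nb (G : Finset (Sym2 V)) (C J W : Finset V) : Finset V :=
  W.biUnion (fun c => Finset.univ.filter (fun b => b ∉ C ∧ b ∉ J ∧ s(c, b) ∈ G))

theorem mem_nb {G : Finset (Sym2 V)} {C J W : Finset V} {b : V} :
    b ∈ nb G C J W ↔ ∃ c ∈ W, b ∉ C ∧ b ∉ J ∧ s(c, b) ∈ G := by
  simp [nb]

theorem hall_violator {G : Finset (Sym2 V)} {C J : Finset V} (h : ¬ InjRep G C J) :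
    ∃ W ⊆ C, (nb G C J W).card < W.card := by
  by_contra hcon
  push Not at hcon
  apply h
  have hall : ∀ s : Finset {c // c ∈ C}, s.card ≤ (s.biUnion (fun c : {c // c ∈ C} =>
      Finset.univ.filter (fun b => b ∉ C ∧ b ∉ J ∧ s(c.1, b) ∈ G))).card := by
    intro s
    have h1 := hcon (s.map (Function.Embedding.subtype _)) (by
      intro c hc
      rw [Finset.mem_map] at hc
      obtain ⟨c', _, rfl⟩ := hc
      exact c'.2)
    rw [Finset.card_map] at h1
    refine h1.trans (Finset.card_le_card ?_)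
    intro b hb
    rw [mem_nb] at hb
    obtain ⟨c, hc, hb'⟩ := hb
    rw [Finset.mem_map] at hc
    obtain ⟨c', hc', rfl⟩ := hc
    rw [Finset.mem_biUnion]
    exact ⟨c', hc', by rw [Finset.mem_filter]; exact ⟨Finset.mem_univ _, hb'⟩⟩
  obtain ⟨f, hf, hf'⟩ := (Finset.all_card_le_biUnion_card_iff_exists_injective _).1 hall
  refine ⟨fun v => if hv : v ∈ C then f ⟨v, hv⟩ else v, ?_, ?_⟩
  · intro a ha b hb hab
    have ha' : a ∈ C := ha
    have hb' : b ∈ C := hb
    simp only [ha', hb', dif_pos] at hab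
    exact congrArg Subtype.val (hf hab)
  · intro c hc
    simp only [hc, dif_pos]
    have := hf' ⟨c, hc⟩
    rw [Finset.mem_filter] at this
    exact this.2

omit [Fintype V] in
theorem InjRep.mono {G : Finset (Sym2 V)} {C J J' : Finset V} (h : InjRep G C J) (hJ : J' ⊆ J) :
    InjRep G C J' := by
  obtain ⟨f, hf, hf'⟩ := h
  exact ⟨f, hf, fun c hc => ⟨(hf' c hc).1, fun h => (hf' c hc).2.1 (hJ h), (hf' c hc).2.2⟩⟩

theorem step_same {G : Finset (Sym2 V)} {x y : V} {C J : Finset V} (hx : x ∈ C) (hy : y ∉ C)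
    (hG : InjRep G C ∅) (hnot : ¬ InjRep G C J)
    (hyes : InjRep (insert s(x, y) G) C J) :
    y ∉ J ∧ ∃ z ∈ J, InjRep G C (insert y (J.erase z)) ∧
      ∀ p q, p ∉ insert y (J.erase z) → q ∉ insert y (J.erase z) →
        InjRep G C (insert p (insert q (insert y (J.erase z)))) →
        p ∉ J ∧ q ∉ J ∧ InjRep (insert s(x, y) G) C (insert p (insert q J)) := by
  classical
  obtain ⟨φ, hφ, hφ'⟩ := hyes
  -- off `x` the map `φ` uses edges of `G`
  have hφG : ∀ c ∈ C.erase x, φ c ∉ C ∧ s(c, φ c) ∈ G := by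
    intro c hc
    obtain ⟨hcx, hcC⟩ := Finset.mem_erase.1 hc
    obtain ⟨h1, _, h3⟩ := hφ' c hcC
    refine ⟨h1, ?_⟩
    rw [Finset.mem_insert] at h3
    rcases h3 with h3 | h3
    · exfalso
      rw [Sym2.eq_iff] at h3
      rcases h3 with ⟨h4, _⟩ | ⟨h4, _⟩
      · exact hcx h4
      · exact hy (h4 ▸ hcC)
    · exact h3
  have hφx : φ x = y := by
    by_contra hne
    apply hnot
    refine ⟨φ, hφ, fun c hc => ⟨(hφ' c hc).1, (hφ' c hc).2.1, ?_⟩⟩
    by_cases hcx : c = x
    · have h3 := (hφ' c hc).2.2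
      rw [Finset.mem_insert, Sym2.eq_iff] at h3
      rcases h3 with (⟨_, h5⟩ | ⟨h4, _⟩) | h3
      · exact absurd (hcx ▸ h5) hne
      · exact absurd (h4 ▸ hc) hy
      · exact h3
    · exact (hφG c (Finset.mem_erase.2 ⟨hcx, hc⟩)).2
  have hyJ : y ∉ J := hφx ▸ (hφ' x hx).2.1
  have hφinj : Set.InjOn φ (C.erase x : Finset V) :=
    hφ.mono (by intro a ha; exact Finset.mem_of_mem_erase ha)
  have hyimg : y ∉ (C.erase x).image φ := by
    intro h
    obtain ⟨c, hc, hcy⟩ := Finset.mem_image.1 h
    obtain ⟨hcx, hcC⟩ := Finset.mem_erase.1 hc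
    exact hcx (hφ hcC hx (hcy.trans hφx.symm))
  -- the Hall violator
  obtain ⟨W, hWC, hW⟩ := hall_violator hnot
  have himg : (W.erase x).image φ ⊆ nb G C J W := by
    intro b hb
    obtain ⟨c, hc, rfl⟩ := Finset.mem_image.1 hb
    obtain ⟨hcx, hcW⟩ := Finset.mem_erase.1 hc
    rw [mem_nb]
    exact ⟨c, hcW, (hφ' c (hWC hcW)).1, (hφ' c (hWC hcW)).2.1,
      (hφG c (Finset.mem_erase.2 ⟨hcx, hWC hcW⟩)).2⟩
  have hinjW : Set.InjOn φ (W.erase x : Finset V) :=
    hφ.mono (by intro a ha; exact hWC (Finset.mem_of_mem_erase ha))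
  have hcard1 : (W.erase x).card ≤ (nb G C J W).card := by
    rw [← Finset.card_image_of_injOn hinjW]
    exact Finset.card_le_card himg
  have hxW : x ∈ W := by
    by_contra h
    rw [Finset.erase_eq_of_notMem h] at hcard1
    omega
  have hWcard : (W.erase x).card + 1 = W.card := by
    rw [Finset.card_erase_of_mem hxW]
    have : 0 < W.card := Finset.card_pos.2 ⟨x, hxW⟩
    omega
  have hnbcard : (nb G C J W).card + 1 = W.card := by omega
  have himgeq : (W.erase x).image φ = nb G C J W := by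
    apply Finset.eq_of_subset_of_card_le himg
    rw [Finset.card_image_of_injOn hinjW]
    omega
  -- the exchange
  obtain ⟨ψ, hψ1, hψ2, b, hb, hbimg⟩ := exchange hx φ hφinj hφG hG
  have hbJ : b ∈ J := by
    by_contra hbJ
    apply hnot
    refine ⟨ψ, hψ1, fun c hc => ⟨(hψ2 c hc).1, ?_, (hψ2 c hc).2⟩⟩
    have h1 : ψ c ∈ C.image ψ := Finset.mem_image_of_mem _ hc
    rw [← hbimg, Finset.mem_insert] at h1
    rcases h1 with h1 | h1
    · rw [h1]
      exact hbJ
    · obtain ⟨c', hc', hcc'⟩ := Finset.mem_image.1 h1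
      rw [← hcc']
      exact (hφ' c' (Finset.mem_of_mem_erase hc')).2.1
  refine ⟨hyJ, b, hbJ, ?_, ?_⟩
  · refine ⟨ψ, hψ1, fun c hc => ⟨(hψ2 c hc).1, ?_, (hψ2 c hc).2⟩⟩
    have h1 : ψ c ∈ C.image ψ := Finset.mem_image_of_mem _ hc
    rw [← hbimg, Finset.mem_insert] at h1
    rw [Finset.mem_insert, Finset.mem_erase, not_or]
    rcases h1 with h1 | h1
    · rw [h1]
      refine ⟨?_, fun h => h.1 rfl⟩
      rintro rfl
      exact hyJ hbJ
    · refine ⟨?_, ?_⟩
      · intro h
        exact hyimg (h ▸ h1)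
      · rintro ⟨_, h3⟩
        obtain ⟨c', hc', hcc'⟩ := Finset.mem_image.1 h1
        rw [← hcc'] at h3
        exact (hφ' c' (Finset.mem_of_mem_erase hc')).2.1 h3
  · intro p q hp hq hχ
    obtain ⟨χ, hχ1, hχ2⟩ := hχ
    rw [Finset.mem_insert, Finset.mem_erase, not_or, not_and] at hp hq
    have hχp : ∀ c ∈ C, χ c ≠ p := fun c hc h => (hχ2 c hc).2.1 (by
      rw [h]; exact Finset.mem_insert_self _ _)
    have hχq : ∀ c ∈ C, χ c ≠ q := fun c hc h => (hχ2 c hc).2.1 (by
      rw [h]; exact Finset.mem_insert_of_mem (Finset.mem_insert_self _ _))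
    have hχy : ∀ c ∈ C, χ c ≠ y := fun c hc h => (hχ2 c hc).2.1 (by
      rw [h]
      exact Finset.mem_insert_of_mem (Finset.mem_insert_of_mem (Finset.mem_insert_self _ _)))
    have hχJ : ∀ c ∈ C, χ c ∈ J → χ c = b := by
      intro c hc hcJ
      by_contra hne
      exact (hχ2 c hc).2.1 (Finset.mem_insert_of_mem (Finset.mem_insert_of_mem
        (Finset.mem_insert_of_mem (Finset.mem_erase.2 ⟨hne, hcJ⟩))))
    -- `b` is in the image of `χ`
    have hbχ : ∃ c ∈ C, χ c = b := by
      by_contra hcon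
      push Not at hcon
      apply hnot
      exact ⟨χ, hχ1, fun c hc => ⟨(hχ2 c hc).1, fun h => hcon c hc (hχJ c hc h),
        (hχ2 c hc).2.2⟩⟩
    obtain ⟨c0, hc0, hc0b⟩ := hbχ
    have hpb : p ≠ b := fun h => hχp c0 hc0 (hc0b.trans h.symm)
    have hqb : q ≠ b := fun h => hχq c0 hc0 (hc0b.trans h.symm)
    have hpJ : p ∉ J := hp.2 hpb
    have hqJ : q ∉ J := hq.2 hqb
    -- the image of `W`
    have hχW : W.image χ = insert b (nb G C J W) := by
      apply Finset.eq_of_subset_of_card_le
      · intro d hd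
        obtain ⟨c, hc, rfl⟩ := Finset.mem_image.1 hd
        rw [Finset.mem_insert]
        by_cases h : χ c ∈ J
        · exact Or.inl (hχJ c (hWC hc) h)
        · right
          rw [mem_nb]
          exact ⟨c, hc, (hχ2 c (hWC hc)).1, h, (hχ2 c (hWC hc)).2.2⟩
      · rw [Finset.card_image_of_injOn (hχ1.mono (by intro a ha; exact hWC ha)), ← hnbcard]
        exact Finset.card_insert_le _ _
    have hc0W : c0 ∈ W := by
      have h1 : b ∈ W.image χ := by rw [hχW]; exact Finset.mem_insert_self _ _
      obtain ⟨c, hc, hcb⟩ := Finset.mem_image.1 h1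
      have : c = c0 := hχ1 (hWC hc) hc0 (hcb.trans hc0b.symm)
      rw [← this]
      exact hc
    have hout : ∀ c ∈ C, c ∉ W → χ c ∉ insert b (nb G C J W) := by
      intro c hc hcW h
      rw [← hχW] at h
      obtain ⟨c', hc', hcc'⟩ := Finset.mem_image.1 h
      exact hcW (hχ1 (hWC hc') hc hcc' ▸ hc')
    have hnbp : p ∉ nb G C J W := by
      intro h
      have h1 : p ∈ W.image χ := by rw [hχW]; exact Finset.mem_insert_of_mem h
      obtain ⟨c', hc', hcc'⟩ := Finset.mem_image.1 h1
      exact hχp c' (hWC hc') hcc'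
    have hnbq : q ∉ nb G C J W := by
      intro h
      have h1 : q ∈ W.image χ := by rw [hχW]; exact Finset.mem_insert_of_mem h
      obtain ⟨c', hc', hcc'⟩ := Finset.mem_image.1 h1
      exact hχq c' (hWC hc') hcc'
    refine ⟨hpJ, hqJ, fun c => if c = x then y else if c ∈ W then φ c else χ c, ?_, ?_⟩
    · intro a ha a' ha' haa
      have ha1 : a ∈ C := ha
      have ha1' : a' ∈ C := ha'
      dsimp only at haa
      by_cases e1 : a = x
      · rw [if_pos e1] at haa
        by_cases e2 : a' = x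
        · rw [e1, e2]
        · exfalso
          rw [if_neg e2] at haa
          split_ifs at haa with e3
          · exact hyimg (haa ▸ Finset.mem_image_of_mem _ (Finset.mem_erase.2 ⟨e2, ha1'⟩))
          · exact hχy a' ha1' haa.symm
      · rw [if_neg e1] at haa
        by_cases e2 : a' = x
        · exfalso
          rw [if_pos e2] at haa
          split_ifs at haa with e3
          · exact hyimg (haa ▸ Finset.mem_image_of_mem _ (Finset.mem_erase.2 ⟨e1, ha1⟩))
          · exact hχy a ha1 haa
        · rw [if_neg e2] at haa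
          by_cases e3 : a ∈ W
          · rw [if_pos e3] at haa
            by_cases e4 : a' ∈ W
            · rw [if_pos e4] at haa
              exact hφ ha1 ha1' haa
            · exfalso
              rw [if_neg e4] at haa
              apply hout a' ha1' e4
              rw [← haa, ← himgeq]
              exact Finset.mem_insert_of_mem
                (Finset.mem_image_of_mem _ (Finset.mem_erase.2 ⟨e1, e3⟩))
          · rw [if_neg e3] at haa
            by_cases e4 : a' ∈ W
            · exfalso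
              rw [if_pos e4] at haa
              apply hout a ha1 e3
              rw [haa, ← himgeq]
              exact Finset.mem_insert_of_mem
                (Finset.mem_image_of_mem _ (Finset.mem_erase.2 ⟨e2, e4⟩))
            · rw [if_neg e4] at haa
              exact hχ1 ha1 ha1' haa
    · intro c hc
      by_cases e1 : c = x
      · simp only [e1, if_pos]
        refine ⟨hy, ?_, Finset.mem_insert_self _ _⟩
        rw [Finset.mem_insert, Finset.mem_insert, not_or, not_or]
        exact ⟨fun h => hp.1 h.symm, fun h => hq.1 h.symm, hyJ⟩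
      · simp only [e1, if_false]
        by_cases e3 : c ∈ W
        · simp only [e3, if_true]
          have h1 := hφG c (Finset.mem_erase.2 ⟨e1, hc⟩)
          have h2 : φ c ∈ nb G C J W := by
            rw [← himgeq]
            exact Finset.mem_image_of_mem _ (Finset.mem_erase.2 ⟨e1, e3⟩)
          refine ⟨h1.1, ?_, Finset.mem_insert_of_mem h1.2⟩
          rw [Finset.mem_insert, Finset.mem_insert, not_or, not_or]
          exact ⟨fun h => hnbp (h ▸ h2), fun h => hnbq (h ▸ h2), (hφ' c hc).2.1⟩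
        · simp only [e3, if_false]
          refine ⟨(hχ2 c hc).1, ?_, Finset.mem_insert_of_mem (hχ2 c hc).2.2⟩
          rw [Finset.mem_insert, Finset.mem_insert, not_or, not_or]
          refine ⟨hχp c hc, hχq c hc, ?_⟩
          intro h
          exact hout c hc e3 (by rw [hχJ c hc h]; exact Finset.mem_insert_self _ _)

end Pool.Agent.Q211.KG
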